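import Mathlib
import Pool.Agent.Lib.Pbc76ba.Frame

set_option autoImplicit false

open MeasureTheory Matrix

namespace Pool.Agent.Results.MP_bc76ba_an.FrameNoOverlap

/-- `R` is expansive: all its (complex) eigenvalues have modulus greater than one. -/
def IsExpansive {d : ℕ} (R : Matrix (Fin d) (Fin d) ℤ) : Prop :=
  ∀ z : ℂ, (R.map (Int.castRingHom ℂ)).charpoly.IsRoot z → 1 < ‖z‖

/-- The map `τ_b(x) = R⁻¹ (x + b)` of `ℝ^d`. -/
noncomputable def tau {d : ℕ} (R : Matrix (Fin d) (Fin d) ℤ) (b : Fin d → ℤ)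
    (x : Fin d → ℝ) : Fin d → ℝ :=
  (R.map (Int.castRingHom ℝ))⁻¹ *ᵥ (x + fun i => (b i : ℝ))

/-- The composition `τ_{w_1} ∘ ... ∘ τ_{w_n}` along the word `w = [w_1, ..., w_n]`. -/
noncomputable def tauWord {d : ℕ} (R : Matrix (Fin d) (Fin d) ℤ) (w : List (Fin d → ℤ))
    (x : Fin d → ℝ) : Fin d → ℝ :=
  w.foldr (fun b y => tau R b y) x

/-- `μ` is the equal-weight self-affine measure of `(R, B)`: a probability measure with
`μ(E) = (1/N) ∑_{b ∈ B} μ(τ_b⁻¹(E))` for all Borel sets `E`, where `N = #B`. -/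
def IsSelfAffineMeasure {d : ℕ} (R : Matrix (Fin d) (Fin d) ℤ) (B : Finset (Fin d → ℤ))
    (μ : Measure (Fin d → ℝ)) : Prop :=
  IsProbabilityMeasure μ ∧
    ∀ E : Set (Fin d → ℝ), MeasurableSet E →
      μ E = (B.card : ENNReal)⁻¹ * ∑ b ∈ B, μ (tau R b ⁻¹' E)

/-- The inner product of `f` with the exponential `x ↦ exp(2 π i ⟨l, x⟩)` in `L²(μ)`. -/
noncomputable def fourierCoef {d : ℕ} (μ : Measure (Fin d → ℝ)) (f : (Fin d → ℝ) → ℂ)
    (l : Fin d → ℝ) : ℂ :=
  ∫ x, f x * Complex.exp (-(2 * Real.pi * Complex.I * ((∑ i, l i * x i : ℝ) : ℂ))) ∂μ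

/-- `μ` has a Fourier frame: for some set `Λ` and constants `0 < A`, `C`,
`A ‖f‖² ≤ ∑_{λ ∈ Λ} |⟨f, exp(2 π i ⟨λ, x⟩)⟩|² ≤ C ‖f‖²` for all `f ∈ L²(μ)`. -/
def HasFourierFrame {d : ℕ} (μ : Measure (Fin d → ℝ)) : Prop :=
  ∃ (Λ : Set (Fin d → ℝ)) (A C : ℝ), 0 < A ∧ ∀ f : (Fin d → ℝ) → ℂ, MemLp f 2 μ →
    ENNReal.ofReal A * ∫⁻ x, ‖f x‖ₑ ^ 2 ∂μ ≤ ∑' l : Λ, ‖fourierCoef μ f l‖ₑ ^ 2 ∧
    ∑' l : Λ, ‖fourierCoef μ f l‖ₑ ^ 2 ≤ ENNReal.ofReal C * ∫⁻ x, ‖f x‖ₑ ^ 2 ∂μ

/-- `T` is the attractor of `(R, B)`: the nonempty compact set with `T = ⋃_{b ∈ B} τ_b(T)`. -/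
def IsAttractor {d : ℕ} (R : Matrix (Fin d) (Fin d) ℤ) (B : Finset (Fin d → ℤ))
    (T : Set (Fin d → ℝ)) : Prop :=
  IsCompact T ∧ T.Nonempty ∧ T = ⋃ b ∈ B, tau R b '' T

/-- If the equal-weight self-affine measure of an expansive integer matrix `R` and a finite integer
digit set `B` has a Fourier frame, then it has no overlap at any level: for words `u`, `v` over `B`
neither of which is a prefix of the other, the pieces `τ_u(T)`, `τ_v(T)` of the attractor meet in a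
set of measure zero. -/
theorem result (d : ℕ) (R : Matrix (Fin d) (Fin d) ℤ) (B : Finset (Fin d → ℤ))
    (μ : Measure (Fin d → ℝ)) (T : Set (Fin d → ℝ)) (hR : IsExpansive R)
    (hμ : IsSelfAffineMeasure R B μ) (hT : IsAttractor R B T) (hF : HasFourierFrame μ)
    (u v : List (Fin d → ℤ)) (hu : ∀ b ∈ u, b ∈ B) (hv : ∀ b ∈ v, b ∈ B)
    (huv : ¬ u <+: v) (hvu : ¬ v <+: u) :
    μ (tauWord R u '' T ∩ tauWord R v '' T) = 0 := by
  have hmeas : ∀ b, Measurable (tau R b) := by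
    intro b
    have : Continuous (tau R b) := by
      unfold tau
      exact Continuous.matrix_mulVec continuous_const (by fun_prop)
    exact this.measurable
  let s : Pool.Agent.Lib.Pbc76ba.Sys d :=
    { R := R, B := B, φ := tau R, μ := μ, T := T, hR := hR, hφ := fun b x => rfl, hp := hμ.1,
      hμ := by
        ext E hE
        rw [hμ.2 E hE, Measure.finsetSum_apply, Finset.mul_sum]
        refine Finset.sum_congr rfl fun b _ => ?_
        rw [Measure.smul_apply, Measure.map_apply (hmeas b) hE, smul_eq_mul]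
      hTc := hT.1, hTn := hT.2.1, hT := hT.2.2 }
  have hP : ∀ w : List (Fin d → ℤ), tauWord R w = s.P w := by
    intro w
    induction w with
    | nil => rfl
    | cons b w ih =>
      ext1 x
      have : tauWord R (b :: w) x = tau R b (tauWord R w x) := rfl
      rw [this, ih]
      rfl
  have hcoef : ∀ (f : (Fin d → ℝ) → ℂ) (l : Fin d → ℝ),
      fourierCoef μ f l = Pool.Agent.Lib.Pbc76ba.coef μ f l := by
    intro f l
    unfold fourierCoef Pool.Agent.Lib.Pbc76ba.coef Pool.Agent.Lib.Pbc76ba.ex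
    congr 1
    ext x
    congr 2
    simp only [Pi.neg_apply, neg_mul, Finset.sum_neg_distrib]
    push_cast
    ring
  have hs : Pool.Agent.Lib.Pbc76ba.Framed s.μ := by
    obtain ⟨Λ, A, C, hA, h⟩ := hF
    refine ⟨Λ, A, C, hA, fun f hf => ?_⟩
    have := h f hf
    simp only [hcoef] at this
    exact this
  rw [hP, hP]
  exact s.no_overlap_frame hs u v hu hv huv hvu

end Pool.Agent.Results.MP_bc76ba_an.FrameNoOverlap
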